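import Pool.Agent.Helper49.Cyl.UPLC
import Pool.Agent.RelPoly.OUse

/-!
# Collapse of the cylindrical 1-degrees and the Lossy Code problem
-/

namespace Pool.Agent.Results.MP_15d9d4_lc.LossyCode

open Pool.Agent.RelPoly Pool.Agent.Cyl

/-- If every cylindrical 1-degree collapses, then the Lossy Code problem is solvable in polynomial
time; and if P = UP and the Lossy Code problem is solvable in polynomial time, then every
cylindrical 1-degree collapses. -/
theorem result :
    (Collapse poly → LossyCodeEasy poly) ∧
      (PeqUP poly → LossyCodeEasy poly → Collapse poly) :=
  ⟨fun h => lossyCode_of_uniformPadding (uniformPadding_of_collapse countable_poly h),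
    fun h h' => collapse_of_uniformPadding (uniformPadding_of_lossyCode h h')⟩

end Pool.Agent.Results.MP_15d9d4_lc.LossyCode
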