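import Pool.Agent.Helper86.Cyl.Forcing

/-!
MP_15d9d4_lc: relative to a suitable oracle every cylindrical 1-degree collapses, but P is
different from UP (hence from NP).  So the implication of Q1 fails in this relativised world.
-/

namespace Pool.Agent.Results.MP_15d9d4_lc.RelativizedRefutation

open Pool.Agent.PolyTime Pool.Agent.Helper86.Rel Pool.Agent.Helper86.Cyl

theorem result : ∃ O : Set Str, CylindricalDegreesCollapse O ∧
    ∃ L : Set Str, InUP O L ∧ ¬ InP O L :=
  exists_world

end Pool.Agent.Results.MP_15d9d4_lc.RelativizedRefutation
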