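import Pool.Agent.Helper86.Cyl.Tfae

/-!
MP_15d9d4_lc: exact reformulations of the hypothesis of Q1 (every cylindrical 1-degree collapses)
as statements about one-one polynomial-time functions of two variables.
-/

namespace Pool.Agent.Results.MP_15d9d4_lc.ThinningCriterion

open Pool.Agent.PolyTime Pool.Agent.Helper86.Rel

/-- Binary strings. -/
abbrev Str : Type := List Bool

/-- Polynomial-time one-one reducibility. -/
def OneRed (A B : Set Str) : Prop :=
  ∃ f : Str → Str, PolyTime f ∧ Function.Injective f ∧ ∀ x, x ∈ A ↔ f x ∈ B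

/-- 1-equivalence. -/
def OneEquiv (A B : Set Str) : Prop := OneRed A B ∧ OneRed B A

/-- p-isomorphism. -/
def PIso (A B : Set Str) : Prop :=
  ∃ h : Str ≃ Str, PolyTime (fun x => h x) ∧ PolyTime (fun x => h.symm x) ∧ ∀ x, x ∈ A ↔ h x ∈ B

/-- `p` is a polynomial-time p-invertible (hence one-one) function of two variables. -/
def PInvertible (p : Str × Str → Str) : Prop :=
  PolyTime p ∧ ∃ g : Str → Str × Str, PolyTime g ∧ ∀ v, g (p v) = v

/-- `A` is a cylinder: it has a p-invertible padding function. -/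
def Cylinder (A : Set Str) : Prop :=
  ∃ p : Str × Str → Str, PInvertible p ∧ ∀ x y, p (x, y) ∈ A ↔ x ∈ A

/-- `B` has a padding function that is only required to be one-one. -/
def OneOnePadding (B : Set Str) : Prop :=
  ∃ q : Str × Str → Str, PolyTime q ∧ Function.Injective q ∧ ∀ x y, q (x, y) ∈ B ↔ x ∈ B

/-- Every cylindrical 1-degree collapses: any two members of a 1-degree that contains a cylinder
are p-isomorphic. -/
def CylindricalDegreesCollapse : Prop :=
  ∀ A, Cylinder A → ∀ B C, OneEquiv A B → OneEquiv A C → PIso B C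

/-- Every one-one polynomial-time `q(x,u)` can be thinned to a p-invertible `ψ(x,y)`: each value
`ψ(x,y)` is obtained from `x` by finitely many applications of `z ↦ q(z,u)`, with suitable `u`. -/
def Thinning : Prop :=
  ∀ q : Str × Str → Str, PolyTime q → Function.Injective q →
    ∃ ψ : Str × Str → Str, PInvertible ψ ∧
      ∀ x y, Relation.ReflTransGen (fun z w => ∃ u, w = q (z, u)) x (ψ (x, y))

/-- The same, but `ψ(x,y)` need only be connected with `x` by moves `z ↦ q(z,u)` and their
inverses. -/
def WeakThinning : Prop :=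
  ∀ q : Str × Str → Str, PolyTime q → Function.Injective q →
    ∃ ψ : Str × Str → Str, PInvertible ψ ∧
      ∀ x y, Relation.EqvGen (fun z w => ∃ u, w = q (z, u)) x (ψ (x, y))

theorem result :
    (CylindricalDegreesCollapse ↔ ∀ B, OneOnePadding B → Cylinder B) ∧
    (CylindricalDegreesCollapse ↔ Thinning) ∧
    (CylindricalDegreesCollapse ↔ WeakThinning) := by
  have h := Pool.Agent.Helper86.Cyl.tfae ∅
  have e1 : Pool.Agent.Helper86.Cyl.CylindricalDegreesCollapse ∅ ↔
      CylindricalDegreesCollapse := by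
    simp only [Pool.Agent.Helper86.Cyl.CylindricalDegreesCollapse, CylindricalDegreesCollapse,
      Pool.Agent.Helper86.Cyl.Cylinder, Cylinder, Pool.Agent.Helper86.Cyl.PInvertible, PInvertible,
      Pool.Agent.Helper86.Cyl.PIso, PIso, Pool.Agent.Helper86.Cyl.OneEquiv, OneEquiv,
      Pool.Agent.Helper86.Cyl.OneRed, OneRed, pto_empty_iff]
  have e2 : (∀ B, Pool.Agent.Helper86.Cyl.OneOnePadding ∅ B → Pool.Agent.Helper86.Cyl.Cylinder ∅ B)
      ↔ ∀ B, OneOnePadding B → Cylinder B := by
    simp only [Pool.Agent.Helper86.Cyl.OneOnePadding, OneOnePadding,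
      Pool.Agent.Helper86.Cyl.Cylinder, Cylinder, Pool.Agent.Helper86.Cyl.PInvertible, PInvertible,
      pto_empty_iff]
  have e3 : Pool.Agent.Helper86.Cyl.Thinning ∅ ↔ Thinning := by
    simp only [Pool.Agent.Helper86.Cyl.Thinning, Thinning, Pool.Agent.Helper86.Cyl.PInvertible,
      PInvertible, pto_empty_iff]
  have e4 : Pool.Agent.Helper86.Cyl.WeakThinning ∅ ↔ WeakThinning := by
    simp only [Pool.Agent.Helper86.Cyl.WeakThinning, WeakThinning,
      Pool.Agent.Helper86.Cyl.PInvertible, PInvertible, pto_empty_iff]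
  rw [← e1, ← e2, ← e3, ← e4]
  exact ⟨h.out 0 1, h.out 0 2, h.out 0 3⟩

end Pool.Agent.Results.MP_15d9d4_lc.ThinningCriterion
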